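import Mathlib

/-! One-variable decreasing rearrangement on the half line (for the proof of PAIR). -/

set_option autoImplicit false

open MeasureTheory Set
open scoped ENNReal

namespace Pool.Agent.TH807.PR

/-- distribution function of `b` on the half line -/
noncomputable def dst (b : ℝ → ℝ≥0∞) (s : ℝ) : ℝ≥0∞ :=
  volume {y : ℝ | 0 ≤ y ∧ ENNReal.ofReal s < b y}

/-- decreasing rearrangement of `b` on the half line -/
noncomputable def rea (b : ℝ → ℝ≥0∞) (t : ℝ) : ℝ≥0∞ :=
  volume {s : ℝ | 0 < s ∧ ENNReal.ofReal t < dst b s}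

theorem vol_lt (x : ℝ≥0∞) : volume {s : ℝ | 0 < s ∧ ENNReal.ofReal s < x} = x := by
  rcases eq_or_ne x ⊤ with rfl | hx
  · have : {s : ℝ | 0 < s ∧ ENNReal.ofReal s < ⊤} = Ioi 0 := by
      ext s; simp
    rw [this, Real.volume_Ioi]
  · have : {s : ℝ | 0 < s ∧ ENNReal.ofReal s < x} = Ioo 0 x.toReal := by
      ext s
      simp only [mem_ofPred_eq, mem_Ioo]
      constructor
      · rintro ⟨h1, h2⟩
        exact ⟨h1, (ENNReal.ofReal_lt_iff_lt_toReal h1.le hx).mp h2⟩
      · rintro ⟨h1, h2⟩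
        exact ⟨h1, (ENNReal.ofReal_lt_iff_lt_toReal h1.le hx).mpr h2⟩
    rw [this, Real.volume_Ioo, sub_zero, ENNReal.ofReal_toReal hx]

theorem vol_le_lt (x : ℝ≥0∞) : volume {s : ℝ | 0 ≤ s ∧ ENNReal.ofReal s < x} = x := by
  rcases eq_or_ne x ⊤ with rfl | hx
  · have : {s : ℝ | 0 ≤ s ∧ ENNReal.ofReal s < ⊤} = Ici 0 := by
      ext s; simp
    rw [this, Real.volume_Ici]
  · have : {s : ℝ | 0 ≤ s ∧ ENNReal.ofReal s < x} = Ico 0 x.toReal := by
      ext s
      simp only [mem_ofPred_eq, mem_Ico]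
      constructor
      · rintro ⟨h1, h2⟩
        exact ⟨h1, (ENNReal.ofReal_lt_iff_lt_toReal h1 hx).mp h2⟩
      · rintro ⟨h1, h2⟩
        exact ⟨h1, (ENNReal.ofReal_lt_iff_lt_toReal h1 hx).mpr h2⟩
    rw [this, Real.volume_Ico, sub_zero, ENNReal.ofReal_toReal hx]

/-- the bathtub inequality on the half line -/
theorem hl_set (a : ℝ → ℝ≥0∞) (ha : AntitoneOn a (Ici 0)) (S : Set ℝ) (hS : MeasurableSet S)
    (hS0 : S ⊆ Ici 0) :
    ∫⁻ y in S, a y ≤ ∫⁻ t in {t : ℝ | 0 ≤ t ∧ ENNReal.ofReal t < volume S}, a t := by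
  rcases eq_or_ne (volume S) ⊤ with h | h
  · rw [h]
    have : {s : ℝ | 0 ≤ s ∧ ENNReal.ofReal s < ⊤} = Ici 0 := by
      ext s; simp
    rw [this]
    exact lintegral_mono_set hS0
  · set m := (volume S).toReal with hm
    have hm0 : 0 ≤ m := ENNReal.toReal_nonneg
    have hT : {s : ℝ | 0 ≤ s ∧ ENNReal.ofReal s < volume S} = Ico 0 m := by
      ext s
      simp only [mem_ofPred_eq, mem_Ico]
      constructor
      · rintro ⟨h1, h2⟩
        exact ⟨h1, (ENNReal.ofReal_lt_iff_lt_toReal h1 h).mp h2⟩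
      · rintro ⟨h1, h2⟩
        exact ⟨h1, (ENNReal.ofReal_lt_iff_lt_toReal h1 h).mpr h2⟩
    rw [hT]
    have hTm : MeasurableSet (Ico 0 m) := measurableSet_Ico
    have hvT : volume (Ico 0 m) = volume S := by
      rw [Real.volume_Ico, sub_zero, ENNReal.ofReal_toReal h]
    have h1 : ∫⁻ y in S, a y = (∫⁻ y in S ∩ Ico 0 m, a y) + ∫⁻ y in S \ Ico 0 m, a y :=
      (lintegral_inter_add_sdiff a S hTm).symm
    have h2 : ∫⁻ y in Ico 0 m, a y = (∫⁻ y in Ico 0 m ∩ S, a y) + ∫⁻ y in Ico 0 m \ S, a y :=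
      (lintegral_inter_add_sdiff a (Ico 0 m) hS).symm
    rw [h1, h2, inter_comm (Ico 0 m) S]
    refine add_le_add le_rfl ?_
    have h3 : ∫⁻ y in S \ Ico 0 m, a y ≤ a m * volume (S \ Ico 0 m) := by
      rw [← setLIntegral_const]
      apply setLIntegral_mono' (hS.diff hTm)
      intro y hy
      have hy0 : (0 : ℝ) ≤ y := hS0 hy.1
      have hmy : m ≤ y := by
        by_contra hc
        exact hy.2 ⟨hy0, not_le.mp hc⟩
      exact ha (mem_Ici.mpr hm0) (mem_Ici.mpr hy0) hmy
    have h4 : a m * volume (Ico 0 m \ S) ≤ ∫⁻ y in Ico 0 m \ S, a y := by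
      rw [← setLIntegral_const]
      apply setLIntegral_mono' (hTm.diff hS)
      intro y hy
      exact ha (mem_Ici.mpr hy.1.1) (mem_Ici.mpr hm0) hy.1.2.le
    have h5 : volume (S \ Ico 0 m) = volume (Ico 0 m \ S) := by
      have e1 := measure_inter_add_sdiff (μ := volume) S hTm
      have e2 := measure_inter_add_sdiff (μ := volume) (Ico 0 m) hS
      rw [hvT, inter_comm, ← e1] at e2
      have hfin : volume (S ∩ Ico 0 m) ≠ ⊤ := ne_top_of_le_ne_top h (measure_mono inter_subset_left)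
      exact ((ENNReal.add_right_inj hfin).mp e2).symm
    calc _ ≤ a m * volume (S \ Ico 0 m) := h3
      _ = a m * volume (Ico 0 m \ S) := by rw [h5]
      _ ≤ _ := h4

variable {X : Type*} [MeasurableSpace X]

theorem meas_dst (b : X → ℝ → ℝ≥0∞) (hb : Measurable (Function.uncurry b)) :
    Measurable (fun q : X × ℝ => dst (b q.1) q.2) := by
  have hS : MeasurableSet {q : (X × ℝ) × ℝ | 0 ≤ q.2 ∧ ENNReal.ofReal q.1.2 < b q.1.1 q.2} :=
    (measurableSet_le measurable_const measurable_snd).inter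
      (measurableSet_lt (ENNReal.measurable_ofReal.comp (measurable_snd.comp measurable_fst))
        (hb.comp ((measurable_fst.comp measurable_fst).prodMk measurable_snd)))
  exact measurable_measure_prodMk_left (ν := volume) hS

theorem meas_rea (b : X → ℝ → ℝ≥0∞) (hb : Measurable (Function.uncurry b)) :
    Measurable (fun q : X × ℝ => rea (b q.1) q.2) := by
  have hS : MeasurableSet {q : (X × ℝ) × ℝ | 0 < q.2 ∧ ENNReal.ofReal q.1.2 < dst (b q.1.1) q.2} :=
    (measurableSet_lt measurable_const measurable_snd).inter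
      (measurableSet_lt (ENNReal.measurable_ofReal.comp (measurable_snd.comp measurable_fst))
        ((meas_dst b hb).comp ((measurable_fst.comp measurable_fst).prodMk measurable_snd)))
  exact measurable_measure_prodMk_left (ν := volume) hS

theorem meas_dst1 (b : ℝ → ℝ≥0∞) (hb : Measurable b) : Measurable (dst b) := by
  have := meas_dst (X := Unit) (fun _ => b) (hb.comp measurable_snd)
  exact this.comp (g := fun q : Unit × ℝ => dst b q.2) (f := fun s : ℝ => ((), s))
    (measurable_const.prodMk measurable_id)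

theorem meas_rea1 (b : ℝ → ℝ≥0∞) (hb : Measurable b) : Measurable (rea b) := by
  have := meas_rea (X := Unit) (fun _ => b) (hb.comp measurable_snd)
  exact this.comp (g := fun q : Unit × ℝ => rea b q.2) (f := fun s : ℝ => ((), s))
    (measurable_const.prodMk measurable_id)

/-- Hardy-Littlewood on the half line -/
theorem hl (a b : ℝ → ℝ≥0∞) (ha : AntitoneOn a (Ici 0)) (hma : Measurable a) (hb : Measurable b) :
    ∫⁻ y in Ici 0, a y * b y ≤ ∫⁻ t in Ici 0, a t * rea b t := by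
  have hS : MeasurableSet {q : ℝ × ℝ | 0 < q.2 ∧ ENNReal.ofReal q.2 < b q.1} :=
    (measurableSet_lt measurable_const measurable_snd).inter
      (measurableSet_lt (ENNReal.measurable_ofReal.comp measurable_snd) (hb.comp measurable_fst))
  have hT : MeasurableSet {q : ℝ × ℝ | 0 < q.2 ∧ ENNReal.ofReal q.1 < dst b q.2} :=
    (measurableSet_lt measurable_const measurable_snd).inter
      (measurableSet_lt (ENNReal.measurable_ofReal.comp measurable_fst)
        ((meas_dst1 b hb).comp measurable_snd))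
  have e1 : ∫⁻ y in Ici 0, a y * b y = ∫⁻ s, ∫⁻ y in Ici 0, a y *
      ({q : ℝ × ℝ | 0 < q.2 ∧ ENNReal.ofReal q.2 < b q.1}.indicator 1 (y, s)) := by
    rw [lintegral_lintegral_swap]
    · apply lintegral_congr
      intro y
      rw [lintegral_const_mul]
      · congr 1
        have : (fun s : ℝ => ({q : ℝ × ℝ | 0 < q.2 ∧ ENNReal.ofReal q.2 < b q.1}.indicator
            (1 : ℝ × ℝ → ℝ≥0∞) (y, s))) =
            ({s : ℝ | 0 < s ∧ ENNReal.ofReal s < b y}.indicator (1 : ℝ → ℝ≥0∞)) := by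
          ext s; rfl
        rw [this, lintegral_indicator_one, vol_lt]
        exact hS.preimage measurable_prodMk_left
      · exact (measurable_one.indicator hS).comp measurable_prodMk_left
    · apply Measurable.aemeasurable
      exact (hma.comp measurable_snd).mul
        ((measurable_one.indicator hS).comp (measurable_snd.prodMk measurable_fst))
  have e2 : ∫⁻ t in Ici 0, a t * rea b t = ∫⁻ s, ∫⁻ t in Ici 0, a t *
      ({q : ℝ × ℝ | 0 < q.2 ∧ ENNReal.ofReal q.1 < dst b q.2}.indicator 1 (t, s)) := by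
    rw [lintegral_lintegral_swap]
    · apply lintegral_congr
      intro y
      rw [lintegral_const_mul]
      · congr 1
        have : (fun s : ℝ => ({q : ℝ × ℝ | 0 < q.2 ∧ ENNReal.ofReal q.1 < dst b q.2}.indicator
            (1 : ℝ × ℝ → ℝ≥0∞) (y, s))) =
            ({s : ℝ | 0 < s ∧ ENNReal.ofReal y < dst b s}.indicator (1 : ℝ → ℝ≥0∞)) := by
          ext s; rfl
        rw [this, lintegral_indicator_one]
        · rfl
        · exact hT.preimage measurable_prodMk_left
      · exact (measurable_one.indicator hT).comp measurable_prodMk_left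
    · apply Measurable.aemeasurable
      exact (hma.comp measurable_snd).mul
        ((measurable_one.indicator hT).comp (measurable_snd.prodMk measurable_fst))
  rw [e1, e2]
  apply lintegral_mono
  intro s
  rcases le_or_gt s 0 with hs | hs
  · have : ∀ y : ℝ, ({q : ℝ × ℝ | 0 < q.2 ∧ ENNReal.ofReal q.2 < b q.1}.indicator
            (1 : ℝ × ℝ → ℝ≥0∞) (y, s)) = 0 := by
      intro y
      apply indicator_of_notMem
      intro h
      exact absurd h.1 (not_lt.mpr hs)
    simp [this]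
  · have hSs : MeasurableSet {y : ℝ | 0 ≤ y ∧ ENNReal.ofReal s < b y} :=
      (measurableSet_le measurable_const measurable_id).inter
        (measurableSet_lt measurable_const hb)
    have hTs : MeasurableSet {t : ℝ | 0 ≤ t ∧ ENNReal.ofReal t < dst b s} :=
      (measurableSet_le measurable_const measurable_id).inter
        (measurableSet_lt ENNReal.measurable_ofReal measurable_const)
    have h1 : ∫⁻ y in Ici 0, a y * ({q : ℝ × ℝ | 0 < q.2 ∧ ENNReal.ofReal q.2 < b q.1}.indicator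
            (1 : ℝ × ℝ → ℝ≥0∞) (y, s)) = ∫⁻ y in {y : ℝ | 0 ≤ y ∧ ENNReal.ofReal s < b y}, a y := by
      rw [← lintegral_indicator measurableSet_Ici, ← lintegral_indicator hSs]
      apply lintegral_congr
      intro y
      by_cases h0 : 0 ≤ y
      · by_cases h1 : ENNReal.ofReal s < b y
        · have q1 : (y, s) ∈ {q : ℝ × ℝ | 0 < q.2 ∧ ENNReal.ofReal q.2 < b q.1} := ⟨hs, h1⟩
          have q2 : y ∈ {y : ℝ | 0 ≤ y ∧ ENNReal.ofReal s < b y} := ⟨h0, h1⟩
          rw [indicator_of_mem (mem_Ici.mpr h0), indicator_of_mem q1, indicator_of_mem q2]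
          simp
        · rw [indicator_of_mem (mem_Ici.mpr h0), indicator_of_notMem (fun h => h1 h.2),
            indicator_of_notMem (fun h => h1 h.2), mul_zero]
      · rw [indicator_of_notMem (fun h => h0 (mem_Ici.mp h)), indicator_of_notMem (fun h => h0 h.1)]
    have h2 : ∫⁻ y in Ici 0, a y * ({q : ℝ × ℝ | 0 < q.2 ∧ ENNReal.ofReal q.1 < dst b q.2}.indicator
            (1 : ℝ × ℝ → ℝ≥0∞) (y, s)) =
            ∫⁻ y in {t : ℝ | 0 ≤ t ∧ ENNReal.ofReal t < dst b s}, a y := by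
      rw [← lintegral_indicator measurableSet_Ici, ← lintegral_indicator hTs]
      apply lintegral_congr
      intro y
      by_cases h0 : 0 ≤ y
      · by_cases h1 : ENNReal.ofReal y < dst b s
        · have q1 : (y, s) ∈ {q : ℝ × ℝ | 0 < q.2 ∧ ENNReal.ofReal q.1 < dst b q.2} := ⟨hs, h1⟩
          have q2 : y ∈ {t : ℝ | 0 ≤ t ∧ ENNReal.ofReal t < dst b s} := ⟨h0, h1⟩
          rw [indicator_of_mem (mem_Ici.mpr h0), indicator_of_mem q1, indicator_of_mem q2]
          simp
        · rw [indicator_of_mem (mem_Ici.mpr h0), indicator_of_notMem (fun h => h1 h.2),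
            indicator_of_notMem (fun h => h1 h.2), mul_zero]
      · rw [indicator_of_notMem (fun h => h0 (mem_Ici.mp h)), indicator_of_notMem (fun h => h0 h.1)]
    beta_reduce
    rw [h1, h2]
    exact hl_set a ha _ hSs (fun y hy => hy.1)

theorem lt_dst_of_lt_rea (b : ℝ → ℝ≥0∞) (t s : ℝ) (hs : 0 ≤ s)
    (h : ENNReal.ofReal s < rea b t) : ENNReal.ofReal t < dst b s := by
  by_contra hc
  have hsub : {s' : ℝ | 0 < s' ∧ ENNReal.ofReal t < dst b s'} ⊆ Ioo 0 s := by
    rintro s' ⟨h1, h2⟩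
    refine ⟨h1, ?_⟩
    by_contra h3
    apply hc
    refine lt_of_lt_of_le h2 (measure_mono ?_)
    rintro y ⟨hy, hy2⟩
    exact ⟨hy, lt_of_le_of_lt (ENNReal.ofReal_le_ofReal (not_lt.mp h3)) hy2⟩
  have := measure_mono (μ := volume) hsub
  rw [Real.volume_Ioo, sub_zero] at this
  exact absurd h (not_lt.mpr this)

/-- rearrangement does not increase power integrals -/
theorem rea_pow (b : ℝ → ℝ≥0∞) (hb : Measurable b) (p : ℝ) (hp : 0 < p) :
    ∫⁻ t in Ici 0, (rea b t) ^ p ≤ ∫⁻ y in Ici 0, (b y) ^ p := by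
  have key : ∀ x : ℝ≥0∞, ∀ σ : ℝ, 0 < σ →
      (ENNReal.ofReal σ < x ^ p ↔ ENNReal.ofReal (σ ^ (1 / p)) < x) := by
    intro x σ hσ
    rw [← ENNReal.ofReal_rpow_of_pos hσ, one_div]
    constructor
    · intro h
      exact (ENNReal.rpow_inv_lt_iff hp).mpr h
    · intro h
      exact (ENNReal.rpow_inv_lt_iff hp).mp h
  have hR := meas_rea1 b hb
  have hS : MeasurableSet {q : ℝ × ℝ | 0 < q.2 ∧ ENNReal.ofReal q.2 < (b q.1) ^ p} :=
    (measurableSet_lt measurable_const measurable_snd).inter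
      (measurableSet_lt (ENNReal.measurable_ofReal.comp measurable_snd)
        ((hb.comp measurable_fst).pow_const p))
  have hT : MeasurableSet {q : ℝ × ℝ | 0 < q.2 ∧ ENNReal.ofReal q.2 < (rea b q.1) ^ p} :=
    (measurableSet_lt measurable_const measurable_snd).inter
      (measurableSet_lt (ENNReal.measurable_ofReal.comp measurable_snd)
        ((hR.comp measurable_fst).pow_const p))
  have gen : ∀ f : ℝ → ℝ≥0∞, Measurable f →
      MeasurableSet {q : ℝ × ℝ | 0 < q.2 ∧ ENNReal.ofReal q.2 < (f q.1) ^ p} →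
      ∫⁻ y in Ici 0, (f y) ^ p =
        ∫⁻ s, volume {y : ℝ | 0 ≤ y ∧ 0 < s ∧ ENNReal.ofReal s < (f y) ^ p} := by
    intro f hf hSf
    have : ∀ y, (f y) ^ p = ∫⁻ s, {q : ℝ × ℝ | 0 < q.2 ∧ ENNReal.ofReal q.2 < (f q.1) ^ p}.indicator
        (1 : ℝ × ℝ → ℝ≥0∞) (y, s) := by
      intro y
      have h1 : (fun s : ℝ => ({q : ℝ × ℝ | 0 < q.2 ∧ ENNReal.ofReal q.2 < (f q.1) ^ p}.indicator
            (1 : ℝ × ℝ → ℝ≥0∞) (y, s))) =
            ({s : ℝ | 0 < s ∧ ENNReal.ofReal s < (f y) ^ p}.indicator (1 : ℝ → ℝ≥0∞)) := by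
          ext s; rfl
      have hms : MeasurableSet {s : ℝ | 0 < s ∧ ENNReal.ofReal s < (f y) ^ p} :=
        hSf.preimage measurable_prodMk_left
      rw [h1, lintegral_indicator_one hms, vol_lt]
    rw [lintegral_congr (fun y => this y)]
    rw [lintegral_lintegral_swap]
    · apply lintegral_congr
      intro s
      have hm : MeasurableSet {y : ℝ | 0 ≤ y ∧ 0 < s ∧ ENNReal.ofReal s < (f y) ^ p} :=
        (measurableSet_le measurable_const measurable_id).inter
          (hSf.preimage (measurable_id.prodMk measurable_const))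
      rw [← lintegral_indicator_one hm, ← lintegral_indicator measurableSet_Ici]
      apply lintegral_congr
      intro y
      by_cases h0 : 0 ≤ y
      · rw [indicator_of_mem (mem_Ici.mpr h0)]
        by_cases h1 : 0 < s ∧ ENNReal.ofReal s < (f y) ^ p
        · have q1 : (y, s) ∈ {q : ℝ × ℝ | 0 < q.2 ∧ ENNReal.ofReal q.2 < (f q.1) ^ p} := h1
          have q2 : y ∈ {y : ℝ | 0 ≤ y ∧ 0 < s ∧ ENNReal.ofReal s < (f y) ^ p} := ⟨h0, h1⟩
          rw [indicator_of_mem q1, indicator_of_mem q2]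
          rfl
        · have q1 : (y, s) ∉ {q : ℝ × ℝ | 0 < q.2 ∧ ENNReal.ofReal q.2 < (f q.1) ^ p} := h1
          rw [indicator_of_notMem q1, indicator_of_notMem (fun h => h1 h.2)]
      · rw [indicator_of_notMem (fun h => h0 (mem_Ici.mp h)), indicator_of_notMem (fun h => h0 h.1)]
    · apply Measurable.aemeasurable
      exact measurable_one.indicator hSf
  rw [gen b hb hS, gen (rea b) hR hT]
  apply lintegral_mono
  intro s
  rcases le_or_gt s 0 with hs | hs
  · have : {y : ℝ | 0 ≤ y ∧ 0 < s ∧ ENNReal.ofReal s < (rea b y) ^ p} = ∅ := by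
      ext y; simp; intro _ h; exact absurd h (not_lt.mpr hs)
    simp only [this, measure_empty, zero_le]
  · have hσ : 0 ≤ s ^ (1 / p) := by positivity
    have h1 : {y : ℝ | 0 ≤ y ∧ 0 < s ∧ ENNReal.ofReal s < (rea b y) ^ p} ⊆
        {y : ℝ | 0 ≤ y ∧ ENNReal.ofReal y < dst b (s ^ (1 / p))} := by
      rintro y ⟨h0, _, h2⟩
      exact ⟨h0, lt_dst_of_lt_rea b y _ hσ ((key _ _ hs).mp h2)⟩
    have h2 : {y : ℝ | 0 ≤ y ∧ ENNReal.ofReal (s ^ (1 / p)) < b y} ⊆
        {y : ℝ | 0 ≤ y ∧ 0 < s ∧ ENNReal.ofReal s < (b y) ^ p} := by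
      rintro y ⟨h0, h2⟩
      exact ⟨h0, hs, (key _ _ hs).mpr h2⟩
    calc volume {y : ℝ | 0 ≤ y ∧ 0 < s ∧ ENNReal.ofReal s < (rea b y) ^ p}
        ≤ volume {y : ℝ | 0 ≤ y ∧ ENNReal.ofReal y < dst b (s ^ (1 / p))} := measure_mono h1
      _ = dst b (s ^ (1 / p)) := vol_le_lt _
      _ ≤ _ := measure_mono h2

/-- monotonicity of the rearrangement under shift and scaling -/
theorem rea_shift (b b' : ℝ → ℝ≥0∞) (κ h : ℝ) (hκ : 0 < κ) (hh : 0 ≤ h)
    (H : ∀ y, 0 ≤ y → ENNReal.ofReal κ * b y ≤ b' (y + h)) (t : ℝ) :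
    ENNReal.ofReal κ * rea b t ≤ rea b' t := by
  have hκ' : ENNReal.ofReal κ ≠ 0 := by simpa using hκ
  have h1 : ∀ s : ℝ, 0 < s → dst b s ≤ dst b' (κ * s) := by
    intro s hs
    unfold dst
    have hsub : (fun y => y + (-h)) ⁻¹' {y : ℝ | 0 ≤ y ∧ ENNReal.ofReal s < b y} ⊆
        {y : ℝ | 0 ≤ y ∧ ENNReal.ofReal (κ * s) < b' y} := by
      intro y hy
      simp only [mem_preimage, mem_ofPred_eq] at hy ⊢
      refine ⟨by linarith [hy.1], ?_⟩
      have h2 := H _ hy.1
      have h3 : y + -h + h = y := by ring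
      rw [h3] at h2
      refine lt_of_lt_of_le ?_ h2
      rw [ENNReal.ofReal_mul hκ.le]
      exact (ENNReal.mul_lt_mul_iff_right hκ' ENNReal.ofReal_ne_top).mpr hy.2
    calc volume {y : ℝ | 0 ≤ y ∧ ENNReal.ofReal s < b y}
        = volume ((fun y => y + (-h)) ⁻¹' {y : ℝ | 0 ≤ y ∧ ENNReal.ofReal s < b y}) :=
          (measure_preimage_add_right _ _ _).symm
      _ ≤ _ := measure_mono hsub
  unfold rea
  have hsub : (fun s => κ⁻¹ * s) ⁻¹' {s : ℝ | 0 < s ∧ ENNReal.ofReal t < dst b s} ⊆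
      {s : ℝ | 0 < s ∧ ENNReal.ofReal t < dst b' s} := by
    intro s hs
    simp only [mem_preimage, mem_ofPred_eq] at hs ⊢
    have hs0 : 0 < s := by
      exact (mul_pos_iff_of_pos_left (inv_pos.mpr hκ)).mp hs.1
    refine ⟨hs0, lt_of_lt_of_le hs.2 ?_⟩
    have := h1 _ hs.1
    rwa [mul_inv_cancel_left₀ hκ.ne'] at this
  calc ENNReal.ofReal κ * volume {s : ℝ | 0 < s ∧ ENNReal.ofReal t < dst b s}
      = volume ((fun s => κ⁻¹ * s) ⁻¹' {s : ℝ | 0 < s ∧ ENNReal.ofReal t < dst b s}) := by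
        rw [Real.volume_preimage_mul_left (inv_ne_zero hκ.ne'), inv_inv, abs_of_pos hκ]
    _ ≤ _ := measure_mono hsub

end Pool.Agent.TH807.PR
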