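import Mathlib
import Pool.Agent.H801R3.NS.Defs
import Pool.Agent.TH807.PR.HL

/-! The rearrangement step in the direction `v` at scale `c`. -/

set_option autoImplicit false

open MeasureTheory Set Filter Topology
open scoped ENNReal
open H801NS

namespace Pool.Agent.TH807.PR

theorem ee_add (a b : ℝ) : ee (a + b) = ee a * ee b := by
  unfold ee
  rw [← ENNReal.ofReal_mul (Real.exp_pos _).le, ← Real.exp_add]
  congr 2
  ring

theorem ee_ne_zero (a : ℝ) : ee a ≠ 0 := by
  unfold ee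
  simpa using Real.exp_pos (-a)

theorem ee_ne_top (a : ℝ) : ee a ≠ ⊤ := ENNReal.ofReal_ne_top

theorem ee_anti {a b : ℝ} (h : a ≤ b) : ee b ≤ ee a :=
  ENNReal.ofReal_le_ofReal (Real.exp_le_exp.mpr (neg_le_neg h))

theorem ee_rpow (a p : ℝ) : ee a ^ p = ee (p * a) := by
  unfold ee
  rw [ENNReal.ofReal_rpow_of_pos (Real.exp_pos _), ← Real.exp_mul]
  congr 2
  ring

theorem ee_zero : ee 0 = 1 := by
  unfold ee; simp

theorem meas_ee : Measurable ee :=
  ENNReal.measurable_ofReal.comp (Real.measurable_exp.comp measurable_neg)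

theorem cont_ee : Continuous ee :=
  ENNReal.continuous_ofReal.comp (Real.continuous_exp.comp continuous_neg)

theorem int_ee (κ : ℝ) (hκ : 0 < κ) : ∫⁻ t in Ici (0 : ℝ), ee (κ * t) = ENNReal.ofReal κ⁻¹ := by
  have h := ProbabilityTheory.lintegral_exponentialPDF_eq_one hκ
  have h1 : ∀ x : ℝ, ProbabilityTheory.exponentialPDF κ x =
      ENNReal.ofReal κ * (Ici (0 : ℝ)).indicator (fun t => ee (κ * t)) x := by
    intro x
    rcases lt_or_ge x 0 with hx | hx
    · rw [ProbabilityTheory.exponentialPDF_of_neg hx,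
        indicator_of_notMem (fun h => absurd (mem_Ici.mp h) (not_le.mpr hx)), mul_zero]
    · rw [ProbabilityTheory.exponentialPDF_of_nonneg hx, indicator_of_mem (mem_Ici.mpr hx),
        ENNReal.ofReal_mul hκ.le]
      rfl
  have hm : Measurable ((Ici (0 : ℝ)).indicator (fun t => ee (κ * t))) :=
    Measurable.indicator (meas_ee.comp (measurable_const_mul κ)) measurableSet_Ici
  rw [lintegral_congr h1, lintegral_const_mul _ hm, lintegral_indicator measurableSet_Ici] at h
  rw [ENNReal.ofReal_inv_of_pos hκ]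
  exact ENNReal.eq_inv_of_mul_eq_one_left (by rwa [mul_comm])

variable {k : ℕ}

/-- the weighted restriction of `β` to the ray from `z` in direction `-v` -/
noncomputable def bz (β : (Fin k → ℝ) → ℝ≥0∞) (v : Fin k → ℝ) (c : ℝ) (z : Fin k → ℝ) (y : ℝ) :
    ℝ≥0∞ := β (z - y • v) * ee (y / c)

theorem meas_bz {β : (Fin k → ℝ) → ℝ≥0∞} (hβ : Measurable β) (v : Fin k → ℝ) (c : ℝ) :
    Measurable (Function.uncurry (bz β v c)) := by
  unfold bz Function.uncurry
  apply Measurable.mul
  · exact hβ.comp (measurable_fst.sub (measurable_snd.smul_const v))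
  · exact meas_ee.comp (measurable_snd.div_const c)

theorem meas_bz1 {β : (Fin k → ℝ) → ℝ≥0∞} (hβ : Measurable β) (v : Fin k → ℝ) (c : ℝ)
    (z : Fin k → ℝ) : Measurable (bz β v c z) :=
  (meas_bz hβ v c).comp measurable_prodMk_left

/-- the step -/
noncomputable def st (β : (Fin k → ℝ) → ℝ≥0∞) (v : Fin k → ℝ) (c : ℝ) (ζ : Fin k → ℝ) : ℝ≥0∞ :=
  (∫⁻ t in Ici (0 : ℝ), rea (bz β v c (ζ + t • v)) t ^ (1 + c)) ^ (1 / (1 + c))

theorem meas_st0 {β : (Fin k → ℝ) → ℝ≥0∞} (hβ : Measurable β) (v : Fin k → ℝ) (c : ℝ) :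
    Measurable (fun q : (Fin k → ℝ) × ℝ => rea (bz β v c (q.1 + q.2 • v)) q.2) :=
  (meas_rea (bz β v c) (meas_bz hβ v c)).comp
    ((measurable_fst.add (measurable_snd.smul_const v)).prodMk measurable_snd)

theorem meas_st {β : (Fin k → ℝ) → ℝ≥0∞} (hβ : Measurable β) (v : Fin k → ℝ) (c : ℝ) :
    Measurable (st β v c) := by
  unfold st
  apply Measurable.pow_const
  exact Measurable.lintegral_prod_right' ((meas_st0 hβ v c).pow_const _)

/-- (S1) -/
theorem st_int {β : (Fin k → ℝ) → ℝ≥0∞} (hβ : Measurable β) (v : Fin k → ℝ) {c : ℝ} (hc : 0 < c) :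
    ∫⁻ ζ, st β v c ζ ^ (1 + c) ≤ ENNReal.ofReal (c / (1 + c)) * ∫⁻ x, β x ^ (1 + c) := by
  have hc1 : 0 < 1 + c := by linarith
  have e1 : ∀ ζ, st β v c ζ ^ (1 + c) =
      ∫⁻ t in Ici (0 : ℝ), rea (bz β v c (ζ + t • v)) t ^ (1 + c) := by
    intro ζ
    unfold st
    rw [← ENNReal.rpow_mul, one_div, inv_mul_cancel₀ hc1.ne', ENNReal.rpow_one]
  have hR := meas_rea (bz β v c) (meas_bz hβ v c)
  calc ∫⁻ ζ, st β v c ζ ^ (1 + c)
      = ∫⁻ ζ, ∫⁻ t in Ici (0 : ℝ), rea (bz β v c (ζ + t • v)) t ^ (1 + c) :=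
        lintegral_congr e1
    _ = ∫⁻ t in Ici (0 : ℝ), ∫⁻ ζ, rea (bz β v c (ζ + t • v)) t ^ (1 + c) :=
        lintegral_lintegral_swap ((meas_st0 hβ v c).pow_const _).aemeasurable
    _ = ∫⁻ t in Ici (0 : ℝ), ∫⁻ z, rea (bz β v c z) t ^ (1 + c) := by
        apply lintegral_congr
        intro t
        exact lintegral_add_right_eq_self (fun z => rea (bz β v c z) t ^ (1 + c)) (t • v)
    _ = ∫⁻ z, ∫⁻ t in Ici (0 : ℝ), rea (bz β v c z) t ^ (1 + c) :=
        (lintegral_lintegral_swap (hR.pow_const _).aemeasurable).symm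
    _ ≤ ∫⁻ z, ∫⁻ y in Ici (0 : ℝ), bz β v c z y ^ (1 + c) :=
        lintegral_mono fun z => rea_pow _ (meas_bz1 hβ v c z) _ hc1
    _ = ∫⁻ y in Ici (0 : ℝ), ∫⁻ z, bz β v c z y ^ (1 + c) :=
        lintegral_lintegral_swap ((meas_bz hβ v c).pow_const _).aemeasurable
    _ = ∫⁻ y in Ici (0 : ℝ), ee ((1 + c) / c * y) * ∫⁻ x, β x ^ (1 + c) := by
        apply lintegral_congr
        intro y
        have h1 : ∀ z, bz β v c z y ^ (1 + c) = ee ((1 + c) / c * y) * β (z - y • v) ^ (1 + c) := by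
          intro z
          unfold bz
          rw [ENNReal.mul_rpow_of_nonneg _ _ hc1.le, ee_rpow, mul_comm]
          congr 2
          field_simp
        rw [lintegral_congr h1, lintegral_const_mul]
        · congr 1
          exact lintegral_sub_right_eq_self (fun x => β x ^ (1 + c)) (y • v)
        · exact (hβ.comp (measurable_id.sub_const _)).pow_const _
    _ = ENNReal.ofReal (c / (1 + c)) * ∫⁻ x, β x ^ (1 + c) := by
        rw [lintegral_mul_const, int_ee _ (by positivity), inv_div]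
        exact meas_ee.comp (measurable_const_mul _)

/-- (S2) -/
theorem st_gauge {β : (Fin k → ℝ) → ℝ≥0∞} (hβ : Measurable β) {A : Set (Fin k → ℝ)} (hA : NB A)
    {v : Fin k → ℝ} (hv : v ∈ A) {c : ℝ} (hc : 0 < c) :
    ∫⁻ x, ee (gauge A x) * β x ≤
      ENNReal.ofReal (c / (1 + c)) ^ (-(1 / (1 + c))) * ∫⁻ x, ee (gauge A x) * st β v c x := by
  have hc1 : 0 < 1 + c := by linarith
  have hAn : A ∈ 𝓝 (0 : Fin k → ℝ) := mem_interior_iff_mem_nhds.mp hA.zero
  have habs : Absorbent ℝ A := absorbent_nhds_zero hAn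
  have hgc : Continuous (gauge A) := continuous_gauge hA.conv hAn
  have hgm : Measurable (fun x => ee (gauge A x)) := meas_ee.comp hgc.measurable
  set κ : ℝ := (1 + c) / c with hκ
  have hκ0 : 0 < κ := by positivity
  set μ : ℝ := c / (1 + c) with hμ
  have hμ0 : 0 < μ := by positivity
  have hκμ : κ * μ = 1 := by rw [hκ, hμ]; field_simp
  have hR := meas_rea (bz β v c) (meas_bz hβ v c)
  -- the left side as a double integral
  have e1 : ENNReal.ofReal μ * ∫⁻ x, ee (gauge A x) * β x =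
      ∫⁻ z, ∫⁻ y in Ici (0 : ℝ), ee (gauge A (z - y • v) + y) * bz β v c z y := by
    have hmeas : Measurable (fun q : (Fin k → ℝ) × ℝ =>
        ee (gauge A (q.1 - q.2 • v) + q.2) * bz β v c q.1 q.2) :=
      (meas_ee.comp ((hgc.measurable.comp (measurable_fst.sub (measurable_snd.smul_const v))).add
        measurable_snd)).mul (meas_bz hβ v c)
    rw [lintegral_lintegral_swap hmeas.aemeasurable]
    have h1 : ∀ y : ℝ, ∫⁻ z, ee (gauge A (z - y • v) + y) * bz β v c z y =
        ee (κ * y) * ∫⁻ x, ee (gauge A x) * β x := by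
      intro y
      have h2 : ∀ z, ee (gauge A (z - y • v) + y) * bz β v c z y =
          ee (κ * y) * (ee (gauge A (z - y • v)) * β (z - y • v)) := by
        intro z
        unfold bz
        have h3 : κ * y = y + y / c := by rw [hκ]; field_simp; ring
        rw [h3, ee_add, ee_add]
        ring
      rw [lintegral_congr h2, lintegral_const_mul]
      · congr 1
        exact lintegral_sub_right_eq_self (fun x => ee (gauge A x) * β x) (y • v)
      · exact (hgm.mul hβ).comp (measurable_id.sub_const _)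
    rw [lintegral_congr h1, lintegral_mul_const, int_ee _ hκ0]
    · congr 2
      rw [hκ, inv_div]
    · exact meas_ee.comp (measurable_const_mul _)
  have e2 : ∫⁻ z, ∫⁻ y in Ici (0 : ℝ), ee (gauge A (z - y • v) + y) * bz β v c z y ≤
      ∫⁻ z, ∫⁻ t in Ici (0 : ℝ), ee (gauge A (z - t • v) + t) * rea (bz β v c z) t := by
    apply lintegral_mono
    intro z
    apply hl
    · intro y _ y' _ hyy
      apply ee_anti
      have h1 : z - y • v = (z - y' • v) + (y' - y) • v := by
        rw [sub_smul]; abel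
      have h2 := gauge_add_le hA.conv habs (z - y' • v) ((y' - y) • v)
      rw [← h1, gauge_smul_of_nonneg (sub_nonneg.mpr hyy), smul_eq_mul] at h2
      have h3 : (y' - y) * gauge A v ≤ (y' - y) * 1 :=
        mul_le_mul_of_nonneg_left (gauge_le_one_of_mem hv) (sub_nonneg.mpr hyy)
      linarith
    · exact meas_ee.comp ((hgc.measurable.comp
        (measurable_const.sub (measurable_id.smul_const v))).add measurable_id)
    · exact meas_bz1 hβ v c z
  have e3 : ∫⁻ z, ∫⁻ t in Ici (0 : ℝ), ee (gauge A (z - t • v) + t) * rea (bz β v c z) t =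
      ∫⁻ ζ, ee (gauge A ζ) * ∫⁻ t in Ici (0 : ℝ), ee t * rea (bz β v c (ζ + t • v)) t := by
    have hmeas : Measurable (fun q : (Fin k → ℝ) × ℝ =>
        ee (gauge A (q.1 - q.2 • v) + q.2) * rea (bz β v c q.1) q.2) :=
      (meas_ee.comp ((hgc.measurable.comp (measurable_fst.sub (measurable_snd.smul_const v))).add
        measurable_snd)).mul hR
    have hmeas2 : Measurable (fun q : (Fin k → ℝ) × ℝ =>
        ee (gauge A q.1) * (ee q.2 * rea (bz β v c (q.1 + q.2 • v)) q.2)) :=
      (hgm.comp measurable_fst).mul ((meas_ee.comp measurable_snd).mul (meas_st0 hβ v c))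
    rw [lintegral_lintegral_swap hmeas.aemeasurable]
    have h0 : ∀ ζ, ee (gauge A ζ) * ∫⁻ t in Ici (0 : ℝ), ee t * rea (bz β v c (ζ + t • v)) t =
        ∫⁻ t in Ici (0 : ℝ), ee (gauge A ζ) * (ee t * rea (bz β v c (ζ + t • v)) t) := by
      intro ζ
      rw [lintegral_const_mul]
      exact meas_ee.mul ((meas_st0 hβ v c).comp measurable_prodMk_left)
    rw [lintegral_congr h0, lintegral_lintegral_swap (f := fun (ζ : Fin k → ℝ) (t : ℝ) =>
      ee (gauge A ζ) * (ee t * rea (bz β v c (ζ + t • v)) t)) hmeas2.aemeasurable]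
    apply lintegral_congr
    intro t
    rw [← lintegral_add_right_eq_self _ (t • v)]
    apply lintegral_congr
    intro ζ
    rw [add_sub_cancel_right, ee_add]
    ring
  have e4 : ∀ ζ, ∫⁻ t in Ici (0 : ℝ), ee t * rea (bz β v c (ζ + t • v)) t ≤
      ENNReal.ofReal μ ^ μ * st β v c ζ := by
    intro ζ
    have hpq : Real.HolderConjugate κ (1 + c) := by
      rw [Real.holderConjugate_iff]
      refine ⟨?_, ?_⟩
      · rw [hκ, lt_div_iff₀ hc]; linarith
      · rw [hκ]; field_simp; ring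
    have h := ENNReal.lintegral_mul_le_Lp_mul_Lq (volume.restrict (Ici (0 : ℝ))) hpq
      (f := ee) (g := fun t => rea (bz β v c (ζ + t • v)) t) meas_ee.aemeasurable
      ((meas_st0 hβ v c).comp measurable_prodMk_left).aemeasurable
    simp only [Pi.mul_apply] at h
    refine h.trans (le_of_eq ?_)
    have h2 : ∀ t : ℝ, ee t ^ κ = ee (κ * t) := fun t => ee_rpow t κ
    rw [lintegral_congr h2, int_ee _ hκ0]
    have h3 : κ⁻¹ = μ := by rw [hκ, hμ, inv_div]
    have h4 : 1 / κ = μ := by rw [one_div, h3]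
    rw [h3, h4]
    rfl
  have hμ1 : μ + 1 / (1 + c) = 1 := by rw [hμ]; field_simp; ring
  have hμn : ENNReal.ofReal μ ≠ 0 := by simpa using hμ0
  have e5 : ENNReal.ofReal μ * ∫⁻ x, ee (gauge A x) * β x ≤
      ENNReal.ofReal μ ^ μ * ∫⁻ x, ee (gauge A x) * st β v c x := by
    rw [e1]
    refine e2.trans ?_
    have hm : Measurable (fun x => ee (gauge A x) * st β v c x) := hgm.mul (meas_st hβ v c)
    rw [e3, ← lintegral_const_mul _ hm]
    apply lintegral_mono
    intro ζ
    calc ee (gauge A ζ) * ∫⁻ t in Ici (0 : ℝ), ee t * rea (bz β v c (ζ + t • v)) t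
        ≤ ee (gauge A ζ) * (ENNReal.ofReal μ ^ μ * st β v c ζ) := by gcongr; exact e4 ζ
      _ = _ := by ring
  have e6 : ENNReal.ofReal μ ^ (-(1 / (1 + c))) = (ENNReal.ofReal μ)⁻¹ * ENNReal.ofReal μ ^ μ := by
    rw [← ENNReal.rpow_neg_one, ← ENNReal.rpow_add _ _ hμn ENNReal.ofReal_ne_top]
    congr 1
    linarith
  rw [e6, mul_assoc]
  calc ∫⁻ x, ee (gauge A x) * β x
      = (ENNReal.ofReal μ)⁻¹ * (ENNReal.ofReal μ * ∫⁻ x, ee (gauge A x) * β x) := by
        rw [← mul_assoc, ENNReal.inv_mul_cancel hμn ENNReal.ofReal_ne_top, one_mul]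
    _ ≤ _ := by gcongr

/-- the set of directions in which `β` decays at most like `exp (-s)` -/
def GG (β : (Fin k → ℝ) → ℝ≥0∞) : Set (Fin k → ℝ) :=
  {z | ∀ x, ∀ s : ℝ, 0 ≤ s → β x * ee s ≤ β (x + s • z)}

theorem conv_GG (β : (Fin k → ℝ) → ℝ≥0∞) : Convex ℝ (GG β) := by
  intro z1 h1 z2 h2 a b ha hb hab x s hs
  have e1 := h1 x (a * s) (mul_nonneg ha hs)
  have e2 := h2 (x + (a * s) • z1) (b * s) (mul_nonneg hb hs)
  have e3 : s = a * s + b * s := by rw [← add_mul, hab, one_mul]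
  have e4 : x + s • (a • z1 + b • z2) = x + (a * s) • z1 + (b * s) • z2 := by
    rw [smul_add, smul_smul, smul_smul, mul_comm s a, mul_comm s b, add_assoc]
  calc β x * ee s = β x * ee (a * s) * ee (b * s) := by
        conv_lhs => rw [e3, ee_add]
        ring
    _ ≤ β (x + (a * s) • z1) * ee (b * s) := by gcongr
    _ ≤ β (x + (a * s) • z1 + (b * s) • z2) := e2
    _ = _ := by rw [e4]

/-- (S3) for old directions -/
theorem GG_st (β : (Fin k → ℝ) → ℝ≥0∞) (v : Fin k → ℝ) {c : ℝ} (hc : 0 < c) :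
    GG β ⊆ GG (st β v c) := by
  intro z hz ζ s hs
  have hc1 : 0 < 1 + c := by linarith
  unfold st
  have h1 : ee s = (ee s ^ (1 + c)) ^ (1 / (1 + c)) := by
    rw [← ENNReal.rpow_mul, mul_one_div_cancel hc1.ne', ENNReal.rpow_one]
  rw [h1, ← ENNReal.mul_rpow_of_nonneg _ _ (by positivity)]
  apply ENNReal.rpow_le_rpow _ (by positivity)
  rw [← lintegral_mul_const']
  · apply lintegral_mono
    intro t
    beta_reduce
    rw [← ENNReal.mul_rpow_of_nonneg _ _ hc1.le]
    apply ENNReal.rpow_le_rpow _ hc1.le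
    rw [mul_comm]
    refine rea_shift _ _ (Real.exp (-s)) 0 (Real.exp_pos _) le_rfl ?_ t
    intro y _
    unfold bz
    have h2 := hz (ζ + t • v - y • v) s hs
    have h3 : ζ + s • z + t • v - (y + 0) • v = ζ + t • v - y • v + s • z := by
      rw [add_zero]; abel
    rw [h3, add_zero, ← mul_assoc]
    refine mul_le_mul_left ?_ _
    rw [mul_comm]
    exact h2
  · exact ENNReal.rpow_ne_top_of_nonneg hc1.le (ee_ne_top s)

/-- (S3) for the new direction -/
theorem new_GG (β : (Fin k → ℝ) → ℝ≥0∞) (v : Fin k → ℝ) {c : ℝ} (hc : 0 < c) :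
    c • v ∈ GG (st β v c) := by
  intro ζ s hs
  have hc1 : 0 < 1 + c := by linarith
  unfold st
  have h1 : ee s = (ee s ^ (1 + c)) ^ (1 / (1 + c)) := by
    rw [← ENNReal.rpow_mul, mul_one_div_cancel hc1.ne', ENNReal.rpow_one]
  rw [h1, ← ENNReal.mul_rpow_of_nonneg _ _ (by positivity)]
  apply ENNReal.rpow_le_rpow _ (by positivity)
  rw [← lintegral_mul_const']
  · apply lintegral_mono
    intro t
    beta_reduce
    rw [← ENNReal.mul_rpow_of_nonneg _ _ hc1.le]
    apply ENNReal.rpow_le_rpow _ hc1.le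
    rw [mul_comm]
    refine rea_shift _ _ (Real.exp (-s)) (s * c) (Real.exp_pos _) (by positivity) ?_ t
    intro y _
    unfold bz
    have h3 : ζ + s • c • v + t • v - (y + s * c) • v = ζ + t • v - y • v := by
      rw [add_smul, smul_smul]; abel
    have h4 : (y + s * c) / c = s + y / c := by field_simp; ring
    rw [h3, h4, ee_add]
    apply le_of_eq
    show ee s * _ = _
    ring
  · exact ENNReal.rpow_ne_top_of_nonneg hc1.le (ee_ne_top s)

end Pool.Agent.TH807.PR
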