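import Mathlib
import Pool.Agent.TH807.PR.Step

/-! `S_STEP`: the normalised step in helper251's interface. -/

set_option autoImplicit false

open MeasureTheory Set Filter Topology
open scoped ENNReal
open H801NS

namespace Pool.Agent.TH807.PR

variable {k : ℕ}

theorem P_of_subset {β : (Fin k → ℝ) → ℝ≥0∞} {D : Set (Fin k → ℝ)} (hn : D ∈ 𝓝 (0 : Fin k → ℝ))
    (h : D ⊆ GG β) (x z : Fin k → ℝ) : β x * ee (gauge D z) ≤ β (x + z) := by
  have habs : Absorbent ℝ D := absorbent_nhds_zero hn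
  have key : ∀ r : ℝ, gauge D z < r → β x * ee r ≤ β (x + z) := by
    intro r hr
    obtain ⟨b, hb, hbr, hz⟩ := exists_lt_of_gauge_lt habs hr
    obtain ⟨d, hd, rfl⟩ := hz
    calc β x * ee r ≤ β x * ee b := by gcongr; exact ee_anti hbr.le
      _ ≤ β (x + b • d) := h hd x b hb.le
  have ht : Tendsto (fun r : ℝ => β x * ee r) (𝓝[>] (gauge D z)) (𝓝 (β x * ee (gauge D z))) :=
    ENNReal.Tendsto.const_mul ((cont_ee.tendsto _).mono_left nhdsWithin_le_nhds)
      (Or.inl (ee_ne_zero _))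
  exact le_of_tendsto ht (eventually_nhdsWithin_of_forall fun r hr => key r hr)

theorem subset_of_P {β : (Fin k → ℝ) → ℝ≥0∞} {B : Set (Fin k → ℝ)}
    (hP : ∀ x z, β x * ee (gauge B z) ≤ β (x + z)) : B ⊆ GG β := by
  intro z hz x s hs
  refine le_trans ?_ (hP x (s • z))
  gcongr
  apply ee_anti
  rw [gauge_smul_of_nonneg hs, smul_eq_mul]
  calc s * gauge B z ≤ s * 1 := mul_le_mul_of_nonneg_left (gauge_le_one_of_mem hz) hs
    _ = s := mul_one s

/-- the normalised step -/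
theorem s_step (k : ℕ) (A B : Set (Fin k → ℝ)) (hA : NB A) (hB : NB B) (v : Fin k → ℝ) (c : ℝ)
    (hv : v ∈ A) (hc : 0 < c) (β : (Fin k → ℝ) → ℝ≥0∞) (hβ : Measurable β)
    (hP : ∀ x z, β x * ee (gauge B z) ≤ β (x + z)) :
    ∃ β' : (Fin k → ℝ) → ℝ≥0∞, Measurable β' ∧
      (∀ x z, β' x * ee (gauge (convexHull ℝ (B ∪ {c • v})) z) ≤ β' (x + z)) ∧
      ∫⁻ x, β' x ^ (1 + c) ≤ ∫⁻ x, β x ^ (1 + c) ∧
      ∫⁻ x, ee (gauge A x) * β x ≤ ∫⁻ x, ee (gauge A x) * β' x := by
  have hc1 : 0 < 1 + c := by linarith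
  set μ : ℝ := c / (1 + c) with hμ
  have hμ0 : 0 < μ := by positivity
  have hμn : ENNReal.ofReal μ ≠ 0 := by simpa using hμ0
  have hμt : ENNReal.ofReal μ ≠ ⊤ := ENNReal.ofReal_ne_top
  set a : ℝ≥0∞ := ENNReal.ofReal μ ^ (-(1 / (1 + c))) with ha
  have hat : a ≠ ⊤ := ENNReal.rpow_ne_top_of_ne_zero hμn hμt
  have hm := meas_st hβ v c
  refine ⟨fun x => a * st β v c x, hm.const_mul a, ?_, ?_, ?_⟩
  · intro x z
    have hn : convexHull ℝ (B ∪ {c • v}) ∈ 𝓝 (0 : Fin k → ℝ) :=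
      mem_of_superset (mem_interior_iff_mem_nhds.mp hB.zero)
        (subset_union_left.trans (subset_convexHull ℝ _))
    have hsub : convexHull ℝ (B ∪ {c • v}) ⊆ GG (st β v c) := by
      apply convexHull_min _ (conv_GG _)
      apply union_subset ((subset_of_P hP).trans (GG_st β v hc))
      rintro _ rfl
      exact new_GG β v hc
    show a * st β v c x * ee _ ≤ a * st β v c (x + z)
    rw [mul_assoc]
    gcongr
    exact P_of_subset hn hsub x z
  · have h1 : ∀ x, (a * st β v c x) ^ (1 + c) = (ENNReal.ofReal μ)⁻¹ * st β v c x ^ (1 + c) := by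
      intro x
      rw [ENNReal.mul_rpow_of_nonneg _ _ hc1.le, ha, ← ENNReal.rpow_mul, ← ENNReal.rpow_neg_one]
      congr 2
      field_simp
    rw [lintegral_congr h1, lintegral_const_mul _ (hm.pow_const _)]
    calc (ENNReal.ofReal μ)⁻¹ * ∫⁻ x, st β v c x ^ (1 + c)
        ≤ (ENNReal.ofReal μ)⁻¹ * (ENNReal.ofReal μ * ∫⁻ x, β x ^ (1 + c)) := by
          gcongr
          exact st_int hβ v hc
      _ = ∫⁻ x, β x ^ (1 + c) := by
          rw [← mul_assoc, ENNReal.inv_mul_cancel hμn hμt, one_mul]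
  · refine (st_gauge hβ hA hv hc).trans (le_of_eq ?_)
    have hAn : A ∈ 𝓝 (0 : Fin k → ℝ) := mem_interior_iff_mem_nhds.mp hA.zero
    have hgm : Measurable (fun x => ee (gauge A x)) :=
      meas_ee.comp (continuous_gauge hA.conv hAn).measurable
    have hm2 : Measurable (fun x => ee (gauge A x) * st β v c x) := hgm.mul hm
    rw [← lintegral_const_mul _ hm2]
    apply lintegral_congr
    intro x
    ring

end Pool.Agent.TH807.PR
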